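import Mathlib
import Pool.Agent.W231.M.Main

set_option autoImplicit false

/-!
# Vojta's main conjecture for a conic and two lines: the degree of the exceptional set

`X = ℙ²` over a number field `K`, `D` any divisor over `K` that contains the conic `x y = z ^ 2`,
the line `z = 0`, which meets it in the points `(1 : 0 : 0)` and `(0 : 1 : 0)`, and a line
`α x + β y = (α + β) z` through the point `(1 : 1 : 1)` of the conic (every smooth conic together
with the line through two of its rational points and a line through a third rational point is of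
this form in suitable coordinates). The points are the `K`-rational ones, `S` is any finite set of
places which contains the infinite places and has at least two elements, and the full proximity
function is considered.
-/

namespace Pool.Agent.Results.MP_17a322_nt.ConicAndTwoLines

open NumberField IsDedekindDomain

variable {K : Type} [Field K] [NumberField K]

/-- The local Weil function, for the absolute value `a` of `K`, of the divisor `F = 0` of `ℙ²`,
`F` a form of degree `d`, at the point with homogeneous coordinates `x`. -/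
noncomputable def weil (a : K → ℝ) (F : MvPolynomial (Fin 3) K) (d : ℕ) (x : Fin 3 → K) : ℝ :=
  Real.log ((⨆ j, a (x j)) ^ d / a (MvPolynomial.eval x F))

/-- The proximity function `m_{S,D}`: the sum of the local Weil functions over all infinite places
and over the primes in `S`, with the usual weights `[K_v : ℚ_v] / [K : ℚ]` (for a prime `v` the
absolute value `FinitePlace.mk v` is normalised by the norm of `v`, so that it contains the local
degree). -/
noncomputable def proximity (S : Finset (HeightOneSpectrum (𝓞 K))) (F : MvPolynomial (Fin 3) K)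
    (d : ℕ) (x : Fin 3 → K) : ℝ :=
  ((∑ w : InfinitePlace K, (w.mult : ℝ) * weil w F d x) +
    ∑ v ∈ S, weil (FinitePlace.mk v) F d x) / Module.finrank ℚ K

/-- The absolute logarithmic height. -/
noncomputable def height (x : Fin 3 → K) : ℝ := Height.logHeight x / Module.finrank ℚ K

/-- The equation `(x y - z ^ 2) z (α x + β y - (α + β) z)` of the conic and the two lines. -/
noncomputable def triple (α β : K) : MvPolynomial (Fin 3) K :=
  (MvPolynomial.X 0 * MvPolynomial.X 1 - MvPolynomial.X 2 ^ 2) * MvPolynomial.X 2 *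
    (MvPolynomial.C α * MvPolynomial.X 0 + MvPolynomial.C β * MvPolynomial.X 1 -
      MvPolynomial.C (α + β) * MvPolynomial.X 2)

/-- If `S` and the infinite places are at least two places there is an `S`-unit of infinite
order. -/
lemma exists_unit (S : Finset (HeightOneSpectrum (𝓞 K)))
    (hS : 2 ≤ Fintype.card (InfinitePlace K) + S.card) :
    ∃ u : K, u ≠ 0 ∧ (∀ v, v ∉ S → FinitePlace.mk v u = 1) ∧ ∀ n : ℕ, 0 < n → u ^ n ≠ 1 := by
  classical
  rcases S.eq_empty_or_nonempty with h | ⟨v, hv⟩
  · have hr : 0 < Units.rank K := by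
      unfold Units.rank
      rw [h, Finset.card_empty] at hS
      omega
    set ε : (𝓞 K)ˣ := Units.fundSystem K ⟨0, hr⟩ with hε
    refine ⟨algebraMap (𝓞 K) K ε, ?_, ?_, ?_⟩
    · intro h0
      have : ((ε : (𝓞 K)ˣ) : 𝓞 K) = 0 := by
        apply FaithfulSMul.algebraMap_injective (𝓞 K) K
        rw [h0, map_zero]
      exact ε.ne_zero this
    · intro w _
      rw [FinitePlace.mk_apply, FinitePlace.norm_eq_one_iff_notMem]
      intro hmem
      exact w.isPrime.ne_top (Ideal.eq_top_of_isUnit_mem _ hmem ε.isUnit)
    · intro n hn h1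
      have h2 : ε ^ n = 1 := by
        apply Units.ext
        apply FaithfulSMul.algebraMap_injective (𝓞 K) K
        rw [Units.val_pow_eq_pow_val, map_pow, Units.val_one, map_one]
        exact h1
      have h3 : ε ∈ Units.torsion K := by
        rw [Units.torsion, CommGroup.mem_torsion, isOfFinOrder_iff_pow_eq_one]
        exact ⟨n, hn, h2⟩
      have h4 := (Units.exist_unique_eq_mul_prod K ε).unique
        (y₁ := (⟨ε, h3⟩, 0)) (y₂ := (1, Pi.single ⟨0, hr⟩ 1)) (by simp) (by
          rw [Finset.prod_eq_single (⟨0, hr⟩ : Fin (Units.rank K))]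
          · simp [hε]
          · intro j _ hj
            simp [Pi.single_eq_of_ne hj]
          · simp)
      have h5 := congrFun (congrArg Prod.snd h4) ⟨0, hr⟩
      simp at h5
  · have hv0 : v.asIdeal ∈ nonZeroDivisors (Ideal (𝓞 K)) :=
      mem_nonZeroDivisors_of_ne_zero v.ne_bot
    set h := Fintype.card (ClassGroup (𝓞 K)) with hh
    have hpos : 0 < h := Fintype.card_pos
    have h1 : (v.asIdeal ^ h).IsPrincipal := by
      rw [← ClassGroup.mk0_eq_one_iff (pow_mem hv0 h)]
      have h2 : (⟨v.asIdeal ^ h, pow_mem hv0 h⟩ : nonZeroDivisors (Ideal (𝓞 K))) =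
          ⟨v.asIdeal, hv0⟩ ^ h := rfl
      rw [h2, map_pow]
      exact pow_card_eq_one
    obtain ⟨a, ha⟩ := (Submodule.isPrincipal_iff _).1 h1
    have ha' : v.asIdeal ^ h = Ideal.span {a} := ha
    have hav : a ∈ v.asIdeal := by
      have : a ∈ v.asIdeal ^ h := by
        rw [ha']
        exact Ideal.mem_span_singleton_self a
      exact Ideal.pow_le_self hpos.ne' this
    have ha0 : a ≠ 0 := by
      rintro rfl
      have : v.asIdeal ^ h = ⊥ := by rw [ha']; simp
      exact v.ne_bot (eq_zero_of_pow_eq_zero this)
    refine ⟨algebraMap (𝓞 K) K a, ?_, ?_, ?_⟩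
    · intro h0
      apply ha0
      apply FaithfulSMul.algebraMap_injective (𝓞 K) K
      rw [h0, map_zero]
    · intro w hw
      rw [FinitePlace.mk_apply, FinitePlace.norm_eq_one_iff_notMem]
      intro hmem
      have h5 : v.asIdeal ^ h ≤ w.asIdeal := by
        rw [ha', Ideal.span_singleton_le_iff_mem]
        exact hmem
      have h6 : v.asIdeal ≤ w.asIdeal := w.isPrime.le_of_pow_le h5
      have h7 : v.asIdeal = w.asIdeal := v.isMaximal.eq_of_le w.isPrime.ne_top h6
      apply hw
      have : v = w := HeightOneSpectrum.ext h7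
      rwa [← this]
    · intro n hn h1'
      have h8 : FinitePlace.mk v (algebraMap (𝓞 K) K a) < 1 := by
        rw [FinitePlace.mk_apply, FinitePlace.norm_lt_one_iff_mem]
        exact hav
      have h9 : FinitePlace.mk v (algebraMap (𝓞 K) K a) ^ n = 1 := by
        rw [← map_pow, h1', map_one]
      have h10 : FinitePlace.mk v (algebraMap (𝓞 K) K a) ^ n < 1 :=
        pow_lt_one₀ (apply_nonneg _ _) h8 hn.ne'
      linarith

/-- Let `D` be the divisor of `ℙ²` over the number field `K` with the equation
`(x y - z ^ 2) z (α x + β y - (α + β) z) E = 0`, where `α`, `β` are not both zero and `E` is any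
nonzero form of degree `e`, so that `D` has degree `e + 4` and `K_X + D` has degree `e + 1`. Let `S`
together with the infinite places consist of at least two places. Suppose that Vojta's inequality
`m_{S,D}(x) + h_K(x) ≤ ε h(x) + C`, with `h_K = -3 h`, holds for all `x ∈ ℙ²(K)` off `D` and off
the zero set of a nonzero form `G` of degree `δ` (with coefficients in some extension of `K`). Then
`2 ^ τ(k) ≤ 2 (δ + e + 4)` for every `k ≥ 1` with `ε k < 1`, where `τ(k)` is the number of the
divisors of `k`. For instance `2 ^ m ≤ δ + e + 4` if `ε 2 ^ m < 1`, so that for a fixed divisor the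
degree of the exceptional set tends to infinity for `ε → 0`. -/
theorem result (K : Type) [Field K] [NumberField K] (S : Finset (HeightOneSpectrum (𝓞 K)))
    (hS : 2 ≤ Fintype.card (InfinitePlace K) + S.card) (α β : K) (hαβ : α ≠ 0 ∨ β ≠ 0)
    (E : MvPolynomial (Fin 3) K) (e : ℕ) (hE : E ≠ 0) (hEe : E.IsHomogeneous e)
    (Ω : Type) [Field Ω] [Algebra K Ω] (G : MvPolynomial (Fin 3) Ω) (δ : ℕ) (hG : G ≠ 0)
    (hGδ : G.IsHomogeneous δ) (ε C : ℝ)
    (hV : ∀ x : Fin 3 → K, MvPolynomial.eval x (triple α β * E) ≠ 0 →
      MvPolynomial.eval (fun j => algebraMap K Ω (x j)) G ≠ 0 →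
      proximity S (triple α β * E) (e + 4) x - 3 * height x ≤ ε * height x + C)
    (k : ℕ) (hk : 1 ≤ k) (hεk : ε * k < 1) :
    2 ^ k.divisors.card ≤ 2 * (δ + e + 4) := by
  classical
  by_contra hlt
  push Not at hlt
  obtain ⟨u, hu, hU, hord⟩ := exists_unit S hS
  set F : Fin 4 → MvPolynomial (Fin 3) K :=
    ![MvPolynomial.X 0 * MvPolynomial.X 1 - MvPolynomial.X 2 ^ 2, MvPolynomial.X 2,
      MvPolynomial.C α * MvPolynomial.X 0 + MvPolynomial.C β * MvPolynomial.X 1 -
        MvPolynomial.C (α + β) * MvPolynomial.X 2, E] with hF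
  set d : Fin 4 → ℕ := ![2, 1, 1, e] with hd
  have hX : ∀ j : Fin 3, (MvPolynomial.X j : MvPolynomial (Fin 3) K).IsHomogeneous 1 :=
    fun j => MvPolynomial.isHomogeneous_X K j
  have hC : ∀ (c : K) (j : Fin 3),
      (MvPolynomial.C c * MvPolynomial.X j : MvPolynomial (Fin 3) K).IsHomogeneous 1 := by
    intro c j
    have := (MvPolynomial.isHomogeneous_C (Fin 3) c).mul (hX j)
    rwa [zero_add] at this
  have hFh : ∀ i, (F i).IsHomogeneous (d i) := by
    intro i
    fin_cases i
    · exact ((hX 0).mul (hX 1)).sub ((hX 2).pow 2)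
    · exact hX 2
    · exact ((hC α 0).add (hC β 1)).sub (hC (α + β) 2)
    · exact hEe
  have hF0 : ∀ i, F i ≠ 0 := by
    intro i
    fin_cases i
    · intro h
      have := congrArg (MvPolynomial.eval (![0, 0, 1] : Fin 3 → K)) h
      simp [hF] at this
    · exact MvPolynomial.X_ne_zero _
    · intro h
      rcases hαβ with h1 | h1
      · have := congrArg (MvPolynomial.eval (![1, 0, 0] : Fin 3 → K)) h
        simp [hF] at this
        exact h1 this
      · have := congrArg (MvPolynomial.eval (![0, 1, 0] : Fin 3 → K)) h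
        simp [hF] at this
        exact h1 this
    · exact hE
  set N : ℝ := (Module.finrank ℚ K : ℝ) with hN
  have hNpos : 0 < N := by
    rw [hN]
    exact_mod_cast Module.finrank_pos
  obtain ⟨x, hx0, hFx, hGx, hbig⟩ := Pool.Agent.W231.M.main3 (K := K) S hu
    (fun v hv => hU v hv) hord α β F d hFh hF0 0 1 2 (by decide) (by decide) (by decide)
    rfl rfl rfl G hG hGδ (ε := ε) (N * C) hk hεk (by
      simp [hd, Fin.sum_univ_four]
      omega)
  have hprod : MvPolynomial.eval x (triple α β * E) = ∏ i, MvPolynomial.eval x (F i) := by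
    rw [Fin.prod_univ_four]
    simp [hF, triple]
  have hne : MvPolynomial.eval x (triple α β * E) ≠ 0 := by
    rw [hprod]
    exact Finset.prod_ne_zero_iff.2 fun i _ => hFx i
  have h1 := hV x hne hGx
  obtain ⟨j0, hj0⟩ := Function.ne_iff.1 hx0
  have hj0' : x j0 ≠ 0 := hj0
  -- the local terms
  have hloc : ∀ f : AbsoluteValue K ℝ, weil f (triple α β * E) (e + 4) x =
      ∑ i, ((d i : ℝ) * Real.log (⨆ j, f (x j)) - Real.log (f (MvPolynomial.eval x (F i)))) := by
    intro f
    have hs : 0 < ⨆ j, f (x j) :=
      (f.pos hj0').trans_le (le_ciSup (f := fun j => f (x j)) (Set.finite_range _).bddAbove j0)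
    unfold weil
    rw [hprod, map_prod, Real.log_div (pow_pos hs _).ne'
      (Finset.prod_pos fun i _ => f.pos (hFx i)).ne', Real.log_pow,
      Real.log_prod fun i _ => (f.pos (hFx i)).ne', Finset.sum_sub_distrib, ← Finset.sum_mul]
    congr 2
    simp [hd, Fin.sum_univ_four]
    ring
  have hprox : N * proximity S (triple α β * E) (e + 4) x =
      ∑ i, ((d i : ℝ) * Pool.Agent.W231.V.LamSup S x -
        Pool.Agent.W231.V.Lam S (MvPolynomial.eval x (F i))) := by
    unfold proximity
    rw [mul_div_cancel₀ _ hNpos.ne']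
    have e1 : ∀ w : InfinitePlace K, weil (w : K → ℝ) (triple α β * E) (e + 4) x =
        ∑ i, ((d i : ℝ) * Real.log (⨆ j, w (x j)) -
          Real.log (w (MvPolynomial.eval x (F i)))) := fun w => hloc w.1
    have e2 : ∀ v : HeightOneSpectrum (𝓞 K), weil (FinitePlace.mk v) (triple α β * E) (e + 4) x =
        ∑ i, ((d i : ℝ) * Real.log (⨆ j, Pool.Agent.W231.V.fv v (x j)) -
          Real.log (Pool.Agent.W231.V.fv v (MvPolynomial.eval x (F i)))) :=
      fun v => hloc (Pool.Agent.W231.V.fv v)
    simp only [e1, e2]
    have e3 : ∀ i, ((d i : ℝ) * Pool.Agent.W231.V.LamSup S x -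
        Pool.Agent.W231.V.Lam S (MvPolynomial.eval x (F i))) =
        (∑ w : InfinitePlace K, (w.mult : ℝ) * ((d i : ℝ) * Real.log (⨆ j, w (x j)) -
          Real.log (w (MvPolynomial.eval x (F i))))) +
        ∑ v ∈ S, ((d i : ℝ) * Real.log (⨆ j, Pool.Agent.W231.V.fv v (x j)) -
          Real.log (Pool.Agent.W231.V.fv v (MvPolynomial.eval x (F i)))) := by
      intro i
      unfold Pool.Agent.W231.V.LamSup Pool.Agent.W231.V.Lam
      simp only [mul_sub, mul_add, Finset.sum_sub_distrib, Finset.mul_sum, mul_left_comm]
      ring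
    rw [Finset.sum_congr rfl fun i _ => e3 i, Finset.sum_add_distrib]
    congr 1
    · rw [Finset.sum_comm]
      exact Finset.sum_congr rfl fun w _ => Finset.mul_sum _ _ _
    · exact Finset.sum_comm
  have hh : N * height x = Height.logHeight x := by
    unfold height
    rw [mul_div_cancel₀ _ hNpos.ne']
  rw [← hprox, ← hh] at hbig
  have h2 := mul_le_mul_of_nonneg_left h1 hNpos.le
  nlinarith [h2, hbig]

end Pool.Agent.Results.MP_17a322_nt.ConicAndTwoLines
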