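import Mathlib
import Pool.Agent.V1189.RT.Vojta

/-!
# The digits of the coordinates and Vojta's inequality for hyperplanes in general position

`X = ℙⁿ` over `ℚ`, `D` is the union of `q ≥ n + 1` rational hyperplanes `L_i = 0` in general position, and
`S` consists of the infinite place and of finitely many primes. A point of `ℙⁿ(ℚ)` is given by a primitive
integer vector `x`; `h(x) = log max |x_j|`, the local heights are `λ_{L,∞}(x) = log (max |x_j| / |L(x)|)` and
`λ_{L,p}(x) = v_p(L(x)) log p`, and `m_{S,D}(x)` is the sum of the local heights over `i` and over the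
places in `S`.

Here Vojta's inequality `m_{S,D}(x) ≤ (n + 1 + ε) h(x) + C` is the theorem of Schmidt and Schlickewei. We
prove a sharper inequality for the points with simple digits. Let `b ≥ 2` be a base prime to the primes in
`S`, and let `a` be an integer vector (for instance a unit vector; then `a · x` is a coordinate of `x`). We
consider `r` pairwise disjoint windows of `l` consecutive digits each of the base `b` expansion of `|a · x|`.
The joint order `m` of these windows is the least `m` such that the `r` words satisfy a common nontrivial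
relation

  `c_0 s_i + c_1 s_(i+1) + … + c_m s_(i+m) = 0`   (`1 ≤ i ≤ l - m`),   `c_0, …, c_m ∈ ℚ` not all `0`

(`m = 0` if all digits in the windows are `0`). We prove: for every `ε > 0` there are finitely many rational
hyperplanes and a constant `C` such that for all points `x` outside them and off `D` and all windows

  `m_{S,D}(x) + (r l - (r + n + 1) m) log b ≤ (n + 1 + ε) h(x) + C`.

The proof uses the subspace theorem (library) for the vectors that consist of the coordinates and of the
integers approximated by the windows, with divisibility conditions at the base `b`, and merges the windows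
that are linearly dependent.
-/

set_option autoImplicit false

namespace Pool.Agent.Results.MP_17a322_nt.DigitsInGeneralPosition

open Finset
open Pool.Agent.V1189.RT.Joint (digit IsWindows HasRelation jointOrder height)

/-- the coordinates of `x` have no common divisor -/
def Primitive {d : ℕ} (x : Fin d → ℤ) : Prop := ∀ c : ℤ, (∀ j, c ∣ x j) → IsUnit c

/-- the proximity function `m_{S,D}(x)` for a primitive vector `x` -/
noncomputable def prox {d q : ℕ} (S : Finset ℕ) (L : Fin q → Fin d → ℤ) (x : Fin d → ℤ) : ℝ :=
  ∑ i, (Real.log (height x / |((∑ j, L i j * x j : ℤ) : ℝ)|) +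
    ∑ p ∈ S, (padicValInt p (∑ j, L i j * x j) : ℝ) * Real.log p)

/-- **Vojta's inequality with digits.** See the text at the beginning of the file. -/
theorem result (n q : ℕ) (hq : n + 1 ≤ q) (L : Fin q → Fin (n + 1) → ℤ)
    (hgen : ∀ σ : Fin (n + 1) → Fin q, Function.Injective σ →
      (Matrix.of fun i j => L (σ i) j).det ≠ 0)
    (S : Finset ℕ) (hS : ∀ p ∈ S, p.Prime) (b : ℕ) (hb : 2 ≤ b) (hbS : ∀ p ∈ S, ¬ p ∣ b)
    (a : Fin (n + 1) → ℤ) (r : ℕ) (hr : 1 ≤ r) (ε : ℝ) (hε : 0 < ε) :
    ∃ (E : Finset (Fin (n + 1) → ℤ)) (C : ℝ), (∀ s ∈ E, s ≠ 0) ∧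
      ∀ x : Fin (n + 1) → ℤ, Primitive x → (∀ s ∈ E, ∑ j, s j * x j ≠ 0) →
      (∀ i, ∑ j, L i j * x j ≠ 0) → ∀ (W : Fin r → ℕ) (l : ℕ),
      IsWindows b (∑ j, a j * x j).natAbs r W l →
      prox S L x + ((r : ℝ) * l - (r + n + 1) * jointOrder b (∑ j, a j * x j).natAbs r W l) *
          Real.log b ≤
        (n + 1 + ε) * Real.log (height x) + C := by
  obtain ⟨E, C, hC0, hE, hmain⟩ := Pool.Agent.V1189.RT.Vojta.vojtaDigits (n + 1) b r q
    (by omega) hq L hgen S hS hb hbS a hr ε hε
  refine ⟨E, C, hE, fun x hx hxE hL W l hW => ?_⟩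
  have h1 := hmain x hxE (fun p hp => by
    by_contra h
    push Not at h
    have h2 := hx p h
    have h3 := (hS p hp).two_le
    rw [Int.isUnit_iff_natAbs_eq, Int.natAbs_natCast] at h2
    omega) hL W l hW
  have hHp : 1 ≤ height x := by
    by_contra h
    have h1 : ∀ j, x j = 0 := by
      intro j
      have h1 : (x j).natAbs ≤ height x :=
        Finset.le_sup (f := fun j => (x j).natAbs) (mem_univ j)
      omega
    exact hL ⟨0, by omega⟩ (by simp [h1])
  have hHR : (0 : ℝ) < height x := by exact_mod_cast hHp
  have h2 : prox S L x = q * Real.log (height x) -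
      ∑ i, Real.log |((∑ j, L i j * x j : ℤ) : ℝ)| +
        ∑ p ∈ S, ∑ i, (padicValInt p (∑ j, L i j * x j) : ℝ) * Real.log p := by
    unfold prox
    rw [Finset.sum_comm (s := S), Finset.sum_add_distrib]
    congr 1
    have h3 : ∀ i, Real.log (height x / |((∑ j, L i j * x j : ℤ) : ℝ)|) =
        Real.log (height x) - Real.log |((∑ j, L i j * x j : ℤ) : ℝ)| := fun i =>
      Real.log_div hHR.ne' (abs_ne_zero.2 (by exact_mod_cast hL i))
    rw [Finset.sum_congr rfl fun i _ => h3 i, Finset.sum_sub_distrib, Finset.sum_const,
      Finset.card_univ, Fintype.card_fin, nsmul_eq_mul]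
  rw [h2]
  push_cast at h1 ⊢
  linarith

end Pool.Agent.Results.MP_17a322_nt.DigitsInGeneralPosition
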