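import Mathlib
import Pool.Agent.V35.WM
import Pool.Agent.Results.MP_17a322_nt.SharpExceptionalSet

/-!
# Vojta's inequality in boxes and near rays of the Mordell-Weil lattice

Let `B = ∏ E_i` be a product of `k ≥ 2` elliptic curves `y² = x³ + a_i x + b_i` over a number field `K`, `Γ_i` a subgroup of
`E_i(K)` (for example `E_i(K)`) of rank `r_i ≥ m ≥ 1`, and `r = ∑ r_i`. The points `P` of `∏ Γ_i` have coordinates
`cd(P) ∈ ℤ ^ r`: a basis of `Γ_i` modulo torsion gives a homomorphism `Γ_i → ℤ ^ (r_i)` such that the height is bounded below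
and above by positive multiples of `|cd(P)| ^ 2`, up to constants. We consider any homomorphisms `cd_i` with this property
(`Coordinates`).

Let `v_k ≥ 1` be a sequence with exponent of convergence at most `τ` (`0` for `b ^ k`, `1 / c` for `k ^ c`) and `θ < 1`.

1. For all `α ∈ ℝ ^ r` outside one set of Hausdorff dimension at most `(r - m + τ) / (1 - θ)` the following holds: for ALL
closed subsets `X` of `ℙ × B`, ALL closed subschemes `W` and `D` of `X` whose images in `B` have codimension at least two and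
at least one, ALL finite sets `S` of places and ALL `ε > 0` and for large `k` the inequality
`h_W(x) + m_{S,D}(x) ≤ ε h(P)` holds (and `x` is not in `W` or `D`) for all rational points `x` of `X` over all points `P` of
`∏ Γ_i` with coordinates in the box with centre `α v_k` and side `2 v_k ^ θ`.
2. Let `0 ≤ θ < 1`. For all `α ∈ ℝ ^ r` outside one set of dimension at most `1 + (r - m) / (1 - θ)` and ALL `X`, `W`, `D`,
`S`, `ε` the inequality holds for all rational points `x` of `X` over all but finitely many `P` with coordinates in the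
neighbourhood of the ray through `α` of radius `t ^ θ` at the point `t α`.

Proof: the bound `O(T ^ ((r - m) / 2))` for the number of the exceptional points of height at most `T`
(SharpExceptionalSet), a covering argument in `ℝ ^ r` and the countability of the data.
-/

set_option autoImplicit false

namespace Pool.Agent.Results.MP_17a322_nt.MordellWeilRays

open MvPolynomial NumberField Pool.Agent.TH954.X Pool.Agent.TH954.X.We Pool.Agent.TH954.Y
open SharpExceptionalSet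

/-- the exponent of convergence of the sequence `v` is at most `τ` -/
def ExpLe (v : ℕ → ℝ) (τ : ℝ) : Prop := ∀ t : ℝ, τ < t → Summable fun n : ℕ => (v n) ^ (-t)

section

variable {K : Type} [Field K] [NumberField K] [DecidableEq K]

/-- A subgroup `Γ` of the group of rational points of the elliptic curve `y² = x³ + a x + b`, of rank `r`, and a map `cd` to
`ℤ ^ r`, additive on `Γ`, such that the height of the points of `Γ` is bounded below and above by positive multiples of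
the square of the norm of the image, up to constants -/
structure Coordinates (a b : K) where
  Γ : AddSubgroup (We.curve a b).toAffine.Point
  r : ℕ
  rank : Module.finrank ℤ Γ = r
  cd : (We.curve a b).toAffine.Point → Fin r → ℤ
  add : ∀ P ∈ Γ, ∀ Q ∈ Γ, cd (P + Q) = cd P + cd Q
  ht : ∃ c1 c2 C : ℝ, 0 < c1 ∧ ∀ P ∈ Γ, c1 * ∑ j, (cd P j : ℝ) ^ 2 - C ≤ Height.logHeight (We.coords P) ∧
    Height.logHeight (We.coords P) ≤ c2 * ∑ j, (cd P j : ℝ) ^ 2 + C

variable {k : ℕ} {a b : Fin k → K}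

/-- subgroups of the groups of rational points of `k` elliptic curves, with coordinates -/
abbrev Lattice (a b : Fin k → K) : Type := ∀ i, Coordinates (a i) (b i)

/-- the index set of the coordinates: `∑ r_i` elements -/
abbrev Idx (L : Lattice a b) : Type := Σ i : Fin k, Fin (L i).r

/-- the points of `∏ Γ i` -/
def Points (L : Lattice a b) : Set (Pts a b) := {P | ∀ i, P i ∈ (L i).Γ}

/-- the coordinates of a point of `∏ Γ i` -/
def coord (L : Lattice a b) (P : Pts a b) (j : Idx L) : ℤ := (L j.1).cd (P j.1) j.2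

/-- the rank of `∏ Γ i` -/
def rank (L : Lattice a b) : ℝ := ∑ i, ((L i).r : ℝ)

/-- for large `l` no point of `∏ Γ i` with coordinates in the box with centre `α v_l` and side `2 v_l ^ θ` is in `S` -/
def NoneInBoxes (L : Lattice a b) (S : Set (Pts a b)) (v : ℕ → ℝ) (θ : ℝ) (α : Idx L → ℝ) : Prop :=
  ∃ k0 : ℕ, ∀ l : ℕ, k0 ≤ l → ∀ P ∈ Points L,
    (∀ j : Idx L, |(coord L P j : ℝ) - α j * v l| ≤ (v l) ^ θ) → P ∉ S

/-- only finitely many points of `∏ Γ i` in `S` have coordinates in the neighbourhood of the ray through `α` of radius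
`t ^ θ` at the point `t α` -/
def FewNearRay (L : Lattice a b) (S : Set (Pts a b)) (θ : ℝ) (α : Idx L → ℝ) : Prop :=
  {P : Pts a b | P ∈ Points L ∧ P ∈ S ∧
    ∃ t : ℝ, 0 < t ∧ ∀ j : Idx L, |(coord L P j : ℝ) - t * α j| ≤ t ^ θ}.Finite

/-- all sets of exceptional points, for all `X`, `W`, `D`, `S` and `ε` as in the statement, have the property `Q` -/
def AllExceptions (n : ℕ) (a b : Fin k → K) (Q : Set (Pts a b) → Prop) : Prop :=
  ∀ X W D : Eqs K n k, ImageCodim a b X W 2 → ImageCodim a b X D 1 →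
    ∀ (S1 : Finset (InfinitePlace K)) (S2 : Finset (FinitePlace K)) (ε : ℝ), 0 < ε →
      Q (Exceptions a b X W D S1 S2 ε)

/-- statement 1: the boxes -/
def Boxes (n : ℕ) (L : Lattice a b) (m : ℕ) : Prop :=
  ∀ (v : ℕ → ℝ) (τ θ : ℝ), (∀ l, 1 ≤ v l) → 0 ≤ τ → ExpLe v τ → θ < 1 →
    ∃ Z : Set (Idx L → ℝ), dimH Z ≤ ENNReal.ofReal ((rank L - m + τ) / (1 - θ)) ∧
      ∀ α : Idx L → ℝ, α ∉ Z → AllExceptions n a b fun S => NoneInBoxes L S v θ α

/-- statement 2: the neighbourhoods of rays -/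
def Rays (n : ℕ) (L : Lattice a b) (m : ℕ) : Prop :=
  ∀ θ : ℝ, 0 ≤ θ → θ < 1 → ∃ Z : Set (Idx L → ℝ), dimH Z ≤ ENNReal.ofReal (1 + (rank L - m) / (1 - θ)) ∧
    ∀ α : Idx L → ℝ, α ∉ Z → AllExceptions n a b fun S => FewNearRay L S θ α

end

/-! ### Countably many thin sets -/

section fam

open Pool.Agent.V35.WM

variable {V : Type*} [NormedAddCommGroup V] [NormedSpace ℝ V] {T J : Type*} [Countable J]

theorem windows (S : J → Set T) (pos : T → V) {s : ℝ} (hs : 0 ≤ s)
    {v : ℕ → ℝ} {τ θ : ℝ} (hpos : ∀ n, 1 ≤ v n) (hτ : 0 ≤ τ) (hv : ExpLe v τ) (hθ : θ < 1) :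
    ∃ X : Set V, dimH X ≤ ENNReal.ofReal ((s + τ) / (1 - θ)) ∧
      ∀ α : V, α ∉ X → ∀ j, Thin (S j) pos s → ∃ k0 : ℕ, ∀ l : ℕ, k0 ≤ l → ∀ t : T,
        ‖pos t - v l • α‖ ≤ (v l) ^ θ → t ∉ S j := by
  classical
  refine ⟨⋃ j : J, if Thin (S j) pos s then BadWin (S j) pos v θ else ∅, ?_, ?_⟩
  · rw [dimH_iUnion]
    refine iSup_le fun j => ?_
    split_ifs with h
    · exact dim_badWin hpos hτ hv hs hθ h
    · rw [dimH_empty]
      exact bot_le
  · intro α hα j hj
    have h1 : α ∉ BadWin (S j) pos v θ := by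
      intro h
      refine hα (Set.mem_iUnion.2 ⟨j, ?_⟩)
      rw [if_pos hj]
      exact h
    unfold BadWin at h1
    rw [Set.mem_ofPred_eq] at h1
    push Not at h1
    obtain ⟨k0, hk0⟩ := h1
    exact ⟨k0, fun l hl t ht htS => absurd ht (not_le.2 (hk0 l hl t htS))⟩

theorem rays (S : J → Set T) (pos : T → V) {s : ℝ} (hs : 0 ≤ s) {θ : ℝ} (hθ0 : 0 ≤ θ) (hθ : θ < 1) :
    ∃ X : Set V, dimH X ≤ ENNReal.ofReal (1 + s / (1 - θ)) ∧
      ∀ α : V, α ∉ X → ∀ j, Thin (S j) pos s →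
        {t | t ∈ S j ∧ ∃ r : ℝ, 0 < r ∧ ‖pos t - r • α‖ ≤ r ^ θ}.Finite := by
  classical
  refine ⟨⋃ j : J, if Thin (S j) pos s then BadRay (S j) pos θ else ∅, ?_, ?_⟩
  · rw [dimH_iUnion]
    refine iSup_le fun j => ?_
    split_ifs with h
    · exact dim_badRay hs hθ0 hθ h
    · rw [dimH_empty]
      exact bot_le
  · intro α hα j hj
    have h1 : α ∉ BadRay (S j) pos θ := by
      intro h
      refine hα (Set.mem_iUnion.2 ⟨j, ?_⟩)
      rw [if_pos hj]
      exact h
    unfold BadRay at h1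
    rwa [Set.mem_ofPred_eq, Set.not_infinite] at h1

end fam

/-! ### Countability of the data -/

theorem countable_nf (K : Type) [Field K] [NumberField K] : Countable K :=
  (Module.finBasis ℚ K).equivFun.injective.countable

theorem countable_places (K : Type) [Field K] [NumberField K] : Countable (FinitePlace K) := by
  have h0 : Countable (𝓞 K) := (NumberField.RingOfIntegers.basis K).equivFun.injective.countable
  have h : Function.Surjective (fun s : Finset (𝓞 K) => Ideal.span (s : Set (𝓞 K))) := by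
    intro I
    exact (isNoetherianRing_iff_ideal_fg _).1 inferInstance I
  have := h.countable
  have : Countable (IsDedekindDomain.HeightOneSpectrum (𝓞 K)) :=
    Function.Injective.countable (f := fun v : IsDedekindDomain.HeightOneSpectrum (𝓞 K) => v.asIdeal)
      (fun v w h => IsDedekindDomain.HeightOneSpectrum.ext h)
  exact FinitePlace.equivHeightOneSpectrum.injective.countable

theorem countable_eqs (K : Type) [Field K] [NumberField K] (n k : ℕ) : Countable (Eqs K n k) := by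
  have := countable_nf K
  have : Countable (MvPolynomial (Option (Fin k) × Fin n) K) := by
    rw [← Cardinal.mk_le_aleph0_iff]
    refine (MvPolynomial.cardinalMk_le_max (σ := Option (Fin k) × Fin n) (R := K)).trans ?_
    exact max_le (max_le (Cardinal.mk_le_aleph0) (Cardinal.mk_le_aleph0)) le_rfl
  refine Function.Injective.countable
    (f := fun X : Eqs K n k => (⟨X.s, X.f, X.δ⟩ : (s : ℕ) × (Fin s → MvPolynomial (Option (Fin k) × Fin n) K) ×
      (Fin s → Option (Fin k) → ℕ))) ?_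
  rintro ⟨s, f, δ, h⟩ ⟨s', f', δ', h'⟩ he
  simp only [Sigma.mk.injEq] at he
  obtain ⟨rfl, he⟩ := he
  have he2 := eq_of_heq he
  simp only [Prod.mk.injEq] at he2
  obtain ⟨rfl, rfl⟩ := he2
  rfl

/-! ### The count -/

section count

variable {K : Type} [Field K] [NumberField K] [DecidableEq K] {k : ℕ} {a b : Fin k → K}

/-- the coordinates of a point of `∏ Γ i` as real numbers -/
def pos (L : Lattice a b) (P : Pts a b) : Idx L → ℝ := fun j => (coord L P j : ℝ)

lemma height_le (L : Lattice a b) : ∃ B : ℝ, 1 ≤ B ∧ ∀ P ∈ Points L, ∀ (X : ℝ), 1 ≤ X →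
    ‖pos L P‖ ≤ X → SharpExceptionalSet.height P ≤ B * X ^ 2 := by
  have h := fun i => (L i).ht
  choose c1 c2 C hc1 hh using h
  refine ⟨max 1 (∑ i, (|c2 i| * (L i).r + |C i|)), le_max_left _ _, fun P hPL X hX hP => ?_⟩
  have h1 : SharpExceptionalSet.height P ≤ (∑ i, (|c2 i| * (L i).r + |C i|)) * X ^ 2 := by
    unfold SharpExceptionalSet.height
    rw [Finset.sum_mul]
    refine Finset.sum_le_sum fun i _ => ?_
    have h2 : Height.logHeight (We.coords (P i)) ≤ c2 i * ∑ j, ((L i).cd (P i) j : ℝ) ^ 2 + C i :=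
      (hh i (P i) (hPL i)).2
    have h3 : ∑ j, ((L i).cd (P i) j : ℝ) ^ 2 ≤ (L i).r * X ^ 2 := by
      have h4 : ∀ j : Fin (L i).r, ((L i).cd (P i) j : ℝ) ^ 2 ≤ X ^ 2 := by
        intro j
        have h5 : ‖pos L P ⟨i, j⟩‖ ≤ X := (norm_le_pi_norm (pos L P) ⟨i, j⟩).trans hP
        rw [Real.norm_eq_abs] at h5
        exact sq_le_sq' (abs_le.1 h5).1 (abs_le.1 h5).2
      refine (Finset.sum_le_sum fun j _ => h4 j).trans ?_
      rw [Finset.sum_const, Finset.card_univ, Fintype.card_fin, nsmul_eq_mul]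
    have h6 : 0 ≤ ∑ j, ((L i).cd (P i) j : ℝ) ^ 2 := Finset.sum_nonneg fun _ _ => sq_nonneg _
    have h7 : c2 i * ∑ j, ((L i).cd (P i) j : ℝ) ^ 2 ≤ |c2 i| * ((L i).r * X ^ 2) :=
      (mul_le_mul_of_nonneg_right (le_abs_self _) h6).trans (mul_le_mul_of_nonneg_left h3 (abs_nonneg _))
    have h8 : C i ≤ |C i| * X ^ 2 := by
      have h9 : (1 : ℝ) ≤ X ^ 2 := one_le_pow₀ hX
      calc C i ≤ |C i| * 1 := by rw [mul_one]; exact le_abs_self _
        _ ≤ |C i| * X ^ 2 := mul_le_mul_of_nonneg_left h9 (abs_nonneg _)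
    change Height.logHeight (We.coords (P i)) ≤ _
    calc _ ≤ _ := h2
      _ ≤ |c2 i| * ((L i).r * X ^ 2) + |C i| * X ^ 2 := add_le_add h7 h8
      _ = _ := by ring
  exact h1.trans (mul_le_mul_of_nonneg_right (le_max_right _ _) (by positivity))

lemma rk_eq (L : Lattice a b) : rk (fun i => (L i).Γ) = rank L := by
  unfold rk rank
  exact Finset.sum_congr rfl fun i _ => by rw [(L i).rank]

lemma rk_ge (L : Lattice a b) (hk : 2 ≤ k) {m : ℕ} (hr : ∀ i, m ≤ (L i).r) : (0 : ℝ) ≤ rank L - m := by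
  unfold rank
  have h1 : ((L ⟨0, by omega⟩).r : ℝ) ≤ ∑ i, ((L i).r : ℝ) :=
    Finset.single_le_sum (f := fun i => ((L i).r : ℝ)) (fun _ _ => Nat.cast_nonneg _)
      (Finset.mem_univ (⟨0, by omega⟩ : Fin k))
  have h2 : (m : ℝ) ≤ ((L ⟨0, by omega⟩).r : ℝ) := by exact_mod_cast hr _
  linarith

theorem thin (L : Lattice a b) {n : ℕ} (hn : 3 ≤ n) (hk : 2 ≤ k) (hd : ∀ i, 4 * a i ^ 3 + 27 * b i ^ 2 ≠ 0) {m : ℕ}
    (hm : 1 ≤ m) (hr : ∀ i, m ≤ (L i).r) {X W D : Eqs K n k}
    (hW : ImageCodim a b X W 2) (hD : ImageCodim a b X D 1) (S1 : Finset (InfinitePlace K))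
    (S2 : Finset (FinitePlace K)) {ε : ℝ} (hε : 0 < ε) :
    Pool.Agent.V35.WM.Thin {P : Pts a b | P ∈ Points L ∧ P ∈ Exceptions a b X W D S1 S2 ε} (pos L) (rank L - m) := by
  intro δ hδ
  obtain ⟨hG, hF, -⟩ := SharpExceptionalSet.result.1 K n k hn hk a b hd (fun i => (L i).Γ) m hm
    (fun i => by rw [(L i).rank]; exact hr i)
  obtain ⟨C, hC⟩ := hF X W D hW hD S1 S2 ε hε
  obtain ⟨_, _, T0, _, hg⟩ := hG
  obtain ⟨B, hB1, hB⟩ := height_le L
  have hrk := rk_ge L hk hr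
  refine ⟨|C| * B ^ ((rank L - m) / 2), fun Y hY => ?_⟩
  have hsub : {t | t ∈ {P : Pts a b | P ∈ Points L ∧ P ∈ Exceptions a b X W D S1 S2 ε} ∧ ‖pos L t‖ ≤ Y} ⊆
      Ball (fun i => (L i).Γ) (B * Y ^ 2) ∩ Exceptions a b X W D S1 S2 ε := by
    rintro P ⟨⟨h0, h1⟩, h2⟩
    exact ⟨⟨h0, hB P h0 Y hY h2⟩, h1⟩
  have hfin : (Ball (fun i => (L i).Γ) (B * Y ^ 2) ∩ Exceptions a b X W D S1 S2 ε).Finite := by
    refine ((hg (max (B * Y ^ 2) T0) (le_max_right _ _)).1.subset ?_).inter_of_left _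
    rintro P ⟨h1, h2⟩
    exact ⟨h1, h2.trans (le_max_left _ _)⟩
  have hBY : 1 ≤ B * Y ^ 2 := one_le_mul_of_one_le_of_one_le hB1 (one_le_pow₀ hY)
  refine ⟨hfin.subset hsub, ?_⟩
  have h1 := hC (B * Y ^ 2) hBY
  rw [rk_eq] at h1
  have h2 : ({t | t ∈ {P : Pts a b | P ∈ Points L ∧ P ∈ Exceptions a b X W D S1 S2 ε} ∧ ‖pos L t‖ ≤ Y}.ncard : ℝ) ≤
      ((Ball (fun i => (L i).Γ) (B * Y ^ 2) ∩ Exceptions a b X W D S1 S2 ε).ncard : ℝ) := by
    exact_mod_cast Set.ncard_le_ncard hsub hfin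
  have hY0 : 0 < Y := by linarith
  calc _ ≤ _ := h2
    _ ≤ C * (B * Y ^ 2) ^ ((rank L - m) / 2) := h1
    _ ≤ |C| * (B * Y ^ 2) ^ ((rank L - m) / 2) :=
        mul_le_mul_of_nonneg_right (le_abs_self C) (by positivity)
    _ = |C| * B ^ ((rank L - m) / 2) * Y ^ (rank L - m) := by
        rw [Real.mul_rpow (by linarith) (by positivity), ← Real.rpow_natCast Y 2, ← Real.rpow_mul hY0.le]
        rw [show ((2 : ℕ) : ℝ) * ((rank L - m) / 2) = rank L - m by push_cast; ring]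
        ring
    _ ≤ |C| * B ^ ((rank L - m) / 2) * Y ^ (rank L - m + δ) := by
        refine mul_le_mul_of_nonneg_left ?_ (by positivity)
        exact Real.rpow_le_rpow_of_exponent_le hY (by linarith)

/-- the data: `X`, `W`, `D`, `S`, and a natural number `j` with `1 / (j + 1) < ε` -/
abbrev Data (K : Type) [Field K] [NumberField K] (n k : ℕ) : Type :=
  Eqs K n k × Eqs K n k × Eqs K n k × Finset (InfinitePlace K) × Finset (FinitePlace K) × ℕ

/-- the exceptional points of `∏ Γ i` for the data -/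
def Exc (L : Lattice a b) {n : ℕ} (j : Data K n k) : Set (Pts a b) :=
  {P | P ∈ Points L ∧ P ∈ Exceptions a b j.1 j.2.1 j.2.2.1 j.2.2.2.1 j.2.2.2.2.1
    (1 / ((j.2.2.2.2.2 : ℝ) + 1))}

omit [DecidableEq K] in
lemma exceptions_mono {n : ℕ} {X W D : Eqs K n k} {S1 : Finset (InfinitePlace K)} {S2 : Finset (FinitePlace K)}
    {ε ε' : ℝ} (h : ε' ≤ ε) : Exceptions a b X W D S1 S2 ε ⊆ Exceptions a b X W D S1 S2 ε' := by
  rintro P ⟨t, ht, hX, hP⟩
  refine ⟨t, ht, hX, ?_⟩
  rcases hP with h1 | h1 | h1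
  · exact Or.inl h1
  · exact Or.inr (Or.inl h1)
  · refine Or.inr (Or.inr (lt_of_le_of_lt ?_ h1))
    refine mul_le_mul_of_nonneg_right h ?_
    exact Finset.sum_nonneg fun _ _ => Height.logHeight_nonneg _

end count

lemma add_cd {G : Type} [AddGroup G] (Γ : AddSubgroup G) {r : ℕ} (cd : Γ →+ (Fin r → ℤ)) (P Q : G) (hP : P ∈ Γ)
    (hQ : Q ∈ Γ) : cd ⟨P + Q, Γ.add_mem hP hQ⟩ = cd ⟨P, hP⟩ + cd ⟨Q, hQ⟩ := cd.map_add ⟨P, hP⟩ ⟨Q, hQ⟩

/-- every subgroup has coordinates -/
theorem exists_coordinates {K : Type} [Field K] [NumberField K] [DecidableEq K] {a b : K}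
    (hd : 4 * a ^ 3 + 27 * b ^ 2 ≠ 0) (Γ : AddSubgroup (We.curve a b).toAffine.Point) :
    ∃ L : Coordinates a b, L.Γ = Γ := by
  classical
  obtain ⟨r, hr, cd, c1, c2, C, hc1, -, -, hlow, hupp⟩ :=
    Pool.Agent.TH954.V.quad_setup (K := K) (a := a) (b := b) hd Γ
  refine ⟨⟨Γ, r, hr, fun P => if h : P ∈ Γ then cd ⟨P, h⟩ else 0, ?_, c1, c2, C, hc1, ?_⟩, rfl⟩
  · intro P hP Q hQ
    rw [dif_pos hP, dif_pos hQ, dif_pos (Γ.add_mem hP hQ)]
    exact add_cd Γ cd P Q hP hQ
  · intro P hP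
    simp only [dif_pos hP]
    have h1 := hlow ⟨P, hP⟩
    have h2 := hupp ⟨P, hP⟩
    rw [pack_ht (K := K) (W := We.curve a b) P]
    exact ⟨sub_le_iff_le_add.2 h1, h2⟩

/-- **Vojta's inequality in boxes and near rays of the Mordell-Weil lattice**; all subgroups have coordinates;
the sequences `(l + 1) ^ c` and `b ^ l` have exponent of convergence `1 / c` and `0`. -/
theorem result :
    (∀ (K : Type) [Field K] [NumberField K] [DecidableEq K] (a b : K), 4 * a ^ 3 + 27 * b ^ 2 ≠ 0 →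
        ∀ Γ : AddSubgroup (We.curve a b).toAffine.Point, ∃ L : Coordinates a b, L.Γ = Γ) ∧
    (∀ (K : Type) [Field K] [NumberField K] [DecidableEq K] (n k : ℕ), 3 ≤ n → 2 ≤ k →
      ∀ a b : Fin k → K, (∀ i, 4 * a i ^ 3 + 27 * b i ^ 2 ≠ 0) → ∀ (L : Lattice a b) (m : ℕ), 1 ≤ m →
        (∀ i, m ≤ (L i).r) → Boxes n L m ∧ Rays n L m) ∧
    (∀ c : ℝ, 0 < c → ExpLe (fun l : ℕ => ((l : ℝ) + 1) ^ c) (1 / c)) ∧
    (∀ b : ℝ, 1 < b → ExpLe (fun l : ℕ => b ^ l) 0) := by
  refine ⟨fun K _ _ _ a b hd Γ => exists_coordinates hd Γ, ?_, Pool.Agent.V35.WM.expLe_pow,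
    Pool.Agent.V35.WM.expLe_geom⟩
  intro K _ _ _ n k hn hk a b hd L m hm hr
  have := countable_eqs K n k
  have := countable_places K
  have hthin : ∀ (X W D : Eqs K n k) (S1 : Finset (InfinitePlace K)) (S2 : Finset (FinitePlace K)) (l : ℕ),
      ImageCodim a b X W 2 → ImageCodim a b X D 1 →
      Pool.Agent.V35.WM.Thin (Exc L (X, W, D, S1, S2, l)) (pos L) (rank L - m) := by
    intro X W D S1 S2 l hW hD
    exact thin L hn hk hd hm hr hW hD S1 S2 (by positivity)
  refine ⟨fun v τ θ hpos hτ hv hθ => ?_, fun θ hθ0 hθ => ?_⟩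
  · obtain ⟨Z, hZ, h⟩ := windows (Exc L (n := n)) (pos L) (rk_ge L hk hr) hpos hτ hv hθ
    refine ⟨Z, hZ, fun α hα X W D hW hD S1 S2 ε hε => ?_⟩
    obtain ⟨l, hl⟩ := exists_nat_one_div_lt hε
    obtain ⟨k0, hk0⟩ := h α hα (X, W, D, S1, S2, l) (hthin X W D S1 S2 l hW hD)
    refine ⟨k0, fun i hi P hPL hP hS => hk0 i hi P ?_ ⟨hPL, exceptions_mono hl.le hS⟩⟩
    have h3 : 0 ≤ (v i) ^ θ := Real.rpow_nonneg (by linarith [hpos i]) _
    refine (pi_norm_le_iff_of_nonneg h3).2 fun j => ?_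
    rw [Real.norm_eq_abs]
    have h4 := hP j
    simpa [pos, mul_comm] using h4
  · obtain ⟨Z, hZ, h⟩ := rays (Exc L (n := n)) (pos L) (rk_ge L hk hr) hθ0 hθ
    refine ⟨Z, hZ, fun α hα X W D hW hD S1 S2 ε hε => ?_⟩
    obtain ⟨l, hl⟩ := exists_nat_one_div_lt hε
    refine (h α hα (X, W, D, S1, S2, l) (hthin X W D S1 S2 l hW hD)).subset ?_
    rintro P ⟨h0, h1, t, ht, h2⟩
    refine ⟨⟨h0, exceptions_mono hl.le h1⟩, t, ht, ?_⟩
    have h3 : 0 ≤ t ^ θ := Real.rpow_nonneg ht.le _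
    refine (pi_norm_le_iff_of_nonneg h3).2 fun j => ?_
    rw [Real.norm_eq_abs]
    simpa [pos] using h2 j

end Pool.Agent.Results.MP_17a322_nt.MordellWeilRays
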