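import Mathlib
import Pool.Agent.Results.MP_17a322_nt.NormalCrossings
import Pool.Agent.H107.MetricPi

/-!
# Vojta's inequality on `ℙ^N` for all strict normal crossings divisors near almost every point

For almost all `z` in `ℝ ^ N`: for each divisor `D` with strict normal crossings (given by integer forms), each finite
set `S` of places, each `κ` and each `σ > 1 + max (1 - κ, 0) / N`, only finitely many rational points `x` with
`|x - z| ≤ H(x) ^ (-σ)` satisfy `m_{S,D}(x) ≥ κ h(x) + c`. (By Dirichlet, infinitely many rational points are as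
near to `z` if `σ ≤ 1 + 1 / N`.)
-/

set_option autoImplicit false

namespace Pool.Agent.Results.MP_17a322_nt.NearAlmostEveryPoint

open MeasureTheory

/-- `x` is a primitive integer vector; every rational point of `ℙ^N` is represented by exactly two
of them, `x` and `-x` -/
def IsPrimitive {N : ℕ} (x : Fin (N + 1) → ℤ) : Prop :=
  Finset.univ.gcd x = 1

/-- `max |x_i|`, the multiplicative height of the point given by a primitive `x` -/
def height {N : ℕ} (x : Fin (N + 1) → ℤ) : ℕ :=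
  Finset.univ.sup (fun i => (x i).natAbs)

/-- The proximity function `m_{S,D}(x)` of the divisor `D` with the components `F j = 0` of degrees
`d j`, for the places `∞` and `p ∈ S`, at a primitive `x` off `D`: the local height of `F j = 0` at
`∞` is `log (max |x_i| ^ d j / |F j x|)`, the local height at `p` is
`log (1 / |F j x|_p) = ord_p (F j x) log p`. -/
noncomputable def proximity {N q : ℕ} (F : Fin q → MvPolynomial (Fin (N + 1)) ℤ) (d : Fin q → ℕ)
    (S : Finset ℕ) (x : Fin (N + 1) → ℤ) : ℝ :=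
  ∑ j, (Real.log ((height x : ℝ) ^ d j / |((MvPolynomial.eval x (F j) : ℤ) : ℝ)|) +
    ∑ p ∈ S, (padicValInt p (MvPolynomial.eval x (F j)) : ℝ) * Real.log p)

/-- The divisor `∑ j, {F j = 0}` has strict normal crossings at its points over the field `K`: at
every point `z` the gradients of those `F j` that vanish at `z` are linearly independent, so these
`F j` are part of a regular system of parameters at `z`. -/
def NormalCrossingsOver {N q : ℕ} (F : Fin q → MvPolynomial (Fin (N + 1)) ℤ) (K : Type) [Field K] :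
    Prop :=
  ∀ z : Fin (N + 1) → K, z ≠ 0 →
    LinearIndependent K (fun j : {j : Fin q // MvPolynomial.aeval z (F j) = 0} =>
      fun i => MvPolynomial.aeval z (MvPolynomial.pderiv i (F j.1)))

/-- `F j`, `j < q`, are forms of degrees `d j` whose divisor has strict normal crossings at its real points and at its
`p`-adic points, `p` in the finite set `S` of primes -/
def Admissible {N q : ℕ} (F : Fin q → MvPolynomial (Fin (N + 1)) ℤ) (d : Fin q → ℕ) (S : Finset ℕ) : Prop :=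
  (∀ j, (F j).IsHomogeneous (d j)) ∧ (∀ p ∈ S, p.Prime) ∧ NormalCrossingsOver F ℝ ∧
    ∀ (p : ℕ) [Fact p.Prime], p ∈ S → NormalCrossingsOver F ℚ_[p]

/-- the points `x` off `D` with `κ h(x) + c ≤ m_{S,D}(x)` -/
def Bad {N q : ℕ} (F : Fin q → MvPolynomial (Fin (N + 1)) ℤ) (d : Fin q → ℕ) (S : Finset ℕ) (κ c : ℝ) :
    Set (Fin (N + 1) → ℤ) :=
  {x | IsPrimitive x ∧ (∀ j, MvPolynomial.eval x (F j) ≠ 0) ∧ κ * Real.log (height x) + c ≤ proximity F d S x}

/-- the size -/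
noncomputable def size {N : ℕ} (x : Fin (N + 1) → ℤ) : ℝ := max 1 (height x : ℝ)

lemma one_le_size {N : ℕ} (x : Fin (N + 1) → ℤ) : 1 ≤ size x := le_max_left _ _

lemma height_pos {N : ℕ} {x : Fin (N + 1) → ℤ} (hx : IsPrimitive x) : 1 ≤ height x := by
  by_contra h
  have h0 : height x = 0 := by omega
  have h1 : ∀ i, x i = 0 := by
    intro i
    have h2 : (x i).natAbs ≤ height x :=
      Finset.le_sup (f := fun i => (x i).natAbs) (Finset.mem_univ i)
    omega
  have h3 : (Finset.univ : Finset (Fin (N + 1))).gcd x = 0 := Finset.gcd_eq_zero_iff.2 (fun i _ => h1 i)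
  unfold IsPrimitive at hx
  rw [h3] at hx
  exact zero_ne_one hx

lemma size_eq {N : ℕ} {x : Fin (N + 1) → ℤ} (hx : IsPrimitive x) : size x = height x := by
  unfold size
  apply max_eq_right
  exact_mod_cast height_pos hx

lemma finite_height {N : ℕ} (B : ℝ) : {x : Fin (N + 1) → ℤ | (height x : ℝ) ≤ B}.Finite := by
  refine (Set.Finite.pi' (t := fun _ : Fin (N + 1) => Set.Icc (-(⌊B⌋₊ : ℤ)) ⌊B⌋₊)
    (fun _ => Set.finite_Icc _ _)).subset ?_
  intro x hx i
  have h1 : height x ≤ ⌊B⌋₊ := Nat.le_floor hx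
  have h2 : (x i).natAbs ≤ height x :=
    Finset.le_sup (f := fun i => (x i).natAbs) (Finset.mem_univ i)
  rw [Set.mem_Icc]
  constructor <;> omega

lemma count {N q : ℕ} {F : Fin q → MvPolynomial (Fin (N + 1)) ℤ} {d : Fin q → ℕ} {S : Finset ℕ}
    (h : Admissible F d S) (κ c : ℝ) : ∀ ε : ℝ, 0 < ε → ∃ C : ℝ, ∀ X : ℝ, 1 ≤ X →
      {x | x ∈ Bad F d S κ c ∧ size x ≤ X}.Finite ∧
        ({x | x ∈ Bad F d S κ c ∧ size x ≤ X}.ncard : ℝ) ≤ C * X ^ ((N : ℝ) + max (1 - κ) 0 + ε) := by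
  intro ε hε
  obtain ⟨h1, h2, h3, h4⟩ := h
  obtain ⟨C, -, hC⟩ := Pool.Agent.Results.MP_17a322_nt.NormalCrossings.result N q F d h1 S h2 h3
    (fun p _ hp => h4 p hp) κ c ε hε
  refine ⟨C, fun X hX => ?_⟩
  have h5 := hC X hX
  have h6 : {x | x ∈ Bad F d S κ c ∧ size x ≤ X} =
      {x : Fin (N + 1) → ℤ | NormalCrossings.IsPrimitive x ∧ (NormalCrossings.height x : ℝ) ≤ X ∧
        (∀ j, MvPolynomial.eval x (F j) ≠ 0) ∧
        κ * Real.log (NormalCrossings.height x) + c ≤ NormalCrossings.proximity F d S x} := by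
    ext x
    constructor
    · rintro ⟨⟨g1, g2, g3⟩, g4⟩
      rw [size_eq g1] at g4
      exact ⟨g1, g4, g2, g3⟩
    · rintro ⟨g1, g4, g2, g3⟩
      refine ⟨⟨g1, g2, g3⟩, ?_⟩
      rw [size_eq g1]
      exact g4
  rw [h6]
  exact h5

lemma countable_forms (N : ℕ) : Countable (MvPolynomial (Fin (N + 1)) ℤ) := by
  rw [← Cardinal.mk_le_aleph0_iff]
  refine MvPolynomial.cardinalMk_le_max.trans ?_
  simp

/-- **Theorem.** (1) Let `N ≥ 1`. For almost all `z` in `ℝ ^ N`: for all admissible `F`, `d`, `S`, all `κ`, `c` and all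
`σ > 1 + max (1 - κ, 0) / N`, only finitely many primitive `x` off `D` with `|x_i / x_0 - z_i| ≤ H(x) ^ (-σ)` satisfy
`κ h(x) + c ≤ m_{S,D}(x)`. (2) So for almost all `z`, all admissible `F`, `d`, `S`, all `σ > 1` and `c`, all but finitely
many rational points off `D` as near to `z` satisfy `m_{S,D}(x) < h(x) + c`, while Vojta's inequality is
`m_{S,D}(x) ≤ (N + 1 + ε) h(x) + O(1)`. (3) For each map `φ` to a metric space and all `κ`, `c`, `σ > 0` the set of the
`z` for which infinitely many `x` with `dist (φ x, z) ≤ H(x) ^ (-σ)` violate `m_{S,D}(x) < κ h(x) + c` has Hausdorff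
dimension at most `(N + max (1 - κ, 0)) / σ`. -/
theorem result :
    (∀ N : ℕ, 1 ≤ N → ∀ᵐ z : Fin N → ℝ, ∀ (q : ℕ) (F : Fin q → MvPolynomial (Fin (N + 1)) ℤ) (d : Fin q → ℕ)
      (S : Finset ℕ), Admissible F d S → ∀ κ c σ : ℝ, 1 + max (1 - κ) 0 / N < σ →
        {x | x ∈ Bad F d S κ c ∧ ∀ i : Fin N, |(x i.succ : ℝ) / x 0 - z i| ≤ (height x : ℝ) ^ (-σ)}.Finite) ∧
    (∀ N : ℕ, 1 ≤ N → ∀ᵐ z : Fin N → ℝ, ∀ (q : ℕ) (F : Fin q → MvPolynomial (Fin (N + 1)) ℤ) (d : Fin q → ℕ)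
      (S : Finset ℕ), Admissible F d S → ∀ c σ : ℝ, 1 < σ →
        {x : Fin (N + 1) → ℤ | IsPrimitive x ∧ (∀ j, MvPolynomial.eval x (F j) ≠ 0) ∧
          (∀ i : Fin N, |(x i.succ : ℝ) / x 0 - z i| ≤ (height x : ℝ) ^ (-σ)) ∧
          ¬ proximity F d S x < Real.log (height x) + c}.Finite) ∧
    (∀ (N q : ℕ) (F : Fin q → MvPolynomial (Fin (N + 1)) ℤ) (d : Fin q → ℕ) (S : Finset ℕ), Admissible F d S →
      ∀ (M : Type) [MetricSpace M] (φ : (Fin (N + 1) → ℤ) → M) (κ c σ : ℝ), 0 < σ →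
        dimH {z : M | {x | x ∈ Bad F d S κ c ∧ dist (φ x) z ≤ (height x : ℝ) ^ (-σ)}.Infinite} ≤
          ENNReal.ofReal (((N : ℝ) + max (1 - κ) 0) / σ)) := by
  have main : ∀ N : ℕ, 1 ≤ N → ∀ᵐ z : Fin N → ℝ, ∀ (q : ℕ) (F : Fin q → MvPolynomial (Fin (N + 1)) ℤ)
      (d : Fin q → ℕ) (S : Finset ℕ), Admissible F d S → ∀ κ c σ : ℝ, 1 + max (1 - κ) 0 / N < σ →
        {x | x ∈ Bad F d S κ c ∧ ∀ i : Fin N, |(x i.succ : ℝ) / x 0 - z i| ≤ (height x : ℝ) ^ (-σ)}.Finite := by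
    intro N hN
    have hNR : (0 : ℝ) < N := by exact_mod_cast hN
    have hne : Nonempty (Fin N) := ⟨⟨0, by omega⟩⟩
    let J : Type := {j : Σ q : ℕ, (Fin q → MvPolynomial (Fin (N + 1)) ℤ) × (Fin q → ℕ) × Finset ℕ //
      Admissible j.2.1 j.2.2.1 j.2.2.2}
    have hcm : Countable (MvPolynomial (Fin (N + 1)) ℤ) := countable_forms N
    have hcJ : Countable J := inferInstance
    have hq : ∀ r : ℚ, ∀ᵐ z : Fin N → ℝ, ∀ σ : ℝ, ((N : ℝ) + max (1 - (r : ℝ)) 0) / N < σ → ∀ j : J,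
        {x | x ∈ Bad j.1.2.1 j.1.2.2.1 j.1.2.2.2 (r : ℝ) 0 ∧
          ∀ i : Fin N, |(x i.succ : ℝ) / x 0 - z i| ≤ (size x) ^ (-σ)}.Finite := by
      intro r
      have h1 := Pool.Agent.H107.ME.ae_family_pi (ι := Fin N)
        (fun (x : Fin (N + 1) → ℤ) (i : Fin N) => (x i.succ : ℝ) / x 0) (fun x : Fin (N + 1) → ℤ => size x)
        one_le_size (s := (N : ℝ) + max (1 - (r : ℝ)) 0) (by positivity) (J := J)
        (fun j => Bad j.1.2.1 j.1.2.2.1 j.1.2.2.2 (r : ℝ) 0) (fun j ε hε => count j.2 (r : ℝ) 0 ε hε)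
      rw [Fintype.card_fin] at h1
      exact h1
    have hall : ∀ᵐ z : Fin N → ℝ, ∀ r : ℚ, ∀ σ : ℝ, ((N : ℝ) + max (1 - (r : ℝ)) 0) / N < σ → ∀ j : J,
        {x | x ∈ Bad j.1.2.1 j.1.2.2.1 j.1.2.2.2 (r : ℝ) 0 ∧
          ∀ i : Fin N, |(x i.succ : ℝ) / x 0 - z i| ≤ (size x) ^ (-σ)}.Finite := ae_all_iff.2 hq
    filter_upwards [hall] with z hz q F d S hA κ c σ hσ
    have h1 : max (1 - κ) 0 < N * (σ - 1) := by
      have h2 : max (1 - κ) 0 / N < σ - 1 := by linarith
      rw [div_lt_iff₀ hNR] at h2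
      linarith
    obtain ⟨r, hr1, hr2⟩ : ∃ r : ℚ, 1 - N * (σ - 1) < (r : ℝ) ∧ (r : ℝ) < κ :=
      exists_rat_btwn (by linarith [le_max_left (1 - κ) 0])
    have h3 : ((N : ℝ) + max (1 - (r : ℝ)) 0) / N < σ := by
      rw [div_lt_iff₀ hNR]
      have h4 : max (1 - (r : ℝ)) 0 < N * (σ - 1) :=
        max_lt (by linarith) (lt_of_le_of_lt (le_max_right _ _) h1)
      nlinarith
    have h4 := hz r σ h3 ⟨⟨q, F, d, S⟩, hA⟩
    refine (h4.union (finite_height (Real.exp (-c / (κ - r))))).subset ?_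
    rintro x ⟨⟨g1, g2, g3⟩, g4⟩
    have g5 : (0 : ℝ) < height x := by exact_mod_cast height_pos g1
    by_cases hx : (r : ℝ) * Real.log (height x) ≤ κ * Real.log (height x) + c
    · left
      refine ⟨⟨g1, g2, ?_⟩, fun i => ?_⟩
      · show (r : ℝ) * Real.log (height x) + 0 ≤ _
        linarith
      · rw [size_eq g1]
        exact g4 i
    · right
      rw [not_le] at hx
      show (height x : ℝ) ≤ _
      rw [← Real.log_le_iff_le_exp g5, le_div_iff₀ (by linarith)]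
      linarith
  refine ⟨main, ?_, ?_⟩
  · intro N hN
    filter_upwards [main N hN] with z hz q F d S hA c σ hσ
    refine (hz q F d S hA 1 c σ (by simpa using hσ)).subset ?_
    rintro x ⟨g1, g2, g3, g4⟩
    refine ⟨⟨g1, g2, ?_⟩, g3⟩
    rw [not_lt] at g4
    linarith
  · intro N q F d S hA M _ φ κ c σ hσ
    obtain ⟨E, h1, h2⟩ := Pool.Agent.H107.ME.dim_family φ (fun x : Fin (N + 1) → ℤ => size x) one_le_size
      (s := (N : ℝ) + max (1 - κ) 0) (by positivity) hσ (J := Unit) (fun _ => Bad F d S κ c)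
      (fun _ ε hε => count hA κ c ε hε)
    refine (dimH_mono ?_).trans h1
    intro z hz
    by_contra hzE
    refine hz ((h2 z hzE ()).subset ?_)
    rintro x ⟨g1, g2⟩
    refine ⟨g1, ?_⟩
    rw [size_eq g1.1]
    exact g2

end Pool.Agent.Results.MP_17a322_nt.NearAlmostEveryPoint
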